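import Pool.Agent.Q173.FanSixMain

/-!
Infinitely many pairwise non-homeomorphic smooth fans with exactly six orbits.

The fan `F m` has `m + 1` main blades of height one; near each of them there are infinitely many
isolated blades of height `2^k / (1 + 2^k)` for every integer `k`.
-/

namespace Pool.Agent.Results.MP_2a55c9_gt.SixOrbits

open Q173Fan

/-- There are infinitely many pairwise non-homeomorphic smooth fans (in the plane) whose
homeomorphism group has exactly six orbits. -/
theorem result : ∃ F : ℕ → Set (ℝ × ℝ),
    (∀ m, (∃ t : F m, IsSmoothFan (F m) t) ∧ Nat.card (Quotient (homeoSetoid (F m))) = 6) ∧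
    ∀ m n, m ≠ n → IsEmpty (F m ≃ₜ F n) :=
  ⟨fun m => (six m).F, fun m => ⟨⟨(six m).o, isSmoothFan_six m⟩, card_orbits⟩,
    fun _ _ h => ⟨fun f => h (eq_of_homeo f)⟩⟩

end Pool.Agent.Results.MP_2a55c9_gt.SixOrbits
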